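import Pool.Agent.H542.PC.Q4

/-!
Products of many values: almost orthogonal systems along almost all translates.
-/

set_option autoImplicit false

namespace Pool.Agent.H542.PC

open Finset Polynomial
open Pool.Agent.Y958.U (LZ)
open Pool.Agent.Helper896.MA (LZ_sub diag' LZ_empty LZ_union LZ_fin lm lm_abs lm_sq)
open Pool.Agent.H373R2.T7 (lam1 lam1_le pnt_lam)

/-- Bessel's inequality for almost orthogonal functions -/
theorem bessel {ι : Type*} (I : Finset ι) (M : Finset ℕ) (g : ℕ → ℝ) (hg : ∀ m ∈ M, 0 ≤ g m) (u : ι → ℕ → ℝ)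
    (hu : ∀ i ∈ I, ∀ m ∈ M, |u i m| ≤ 1) (φ : ℕ → ℂ) (hφ : ∀ m ∈ M, ‖φ m‖ ≤ 1) (G δ : ℝ) (hG : ∑ m ∈ M, g m ≤ G)
    (hδ : 0 ≤ δ) (ho : ∀ i ∈ I, ∀ j ∈ I, i ≠ j → |∑ m ∈ M, g m * (u i m * u j m)| ≤ δ) :
    ∑ i ∈ I, ‖∑ m ∈ M, (g m : ℂ) * (φ m * u i m)‖ ^ 2 ≤ G * (G + #I * δ) := by
  classical
  have hG0 : 0 ≤ G := (sum_nonneg hg).trans hG
  set B : ι → ℂ := fun i => ∑ m ∈ M, (g m : ℂ) * (φ m * u i m) with hB
  set S : ℝ := ∑ i ∈ I, ‖B i‖ ^ 2 with hS
  have hS0 : 0 ≤ S := sum_nonneg fun _ _ => by positivity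
  set v : ℕ → ℂ := fun m => ∑ i ∈ I, (starRingEnd ℂ) (B i) * u i m with hv
  set T : ℝ := ∑ m ∈ M, g m * ‖v m‖ ^ 2 with hT
  have hT0 : 0 ≤ T := sum_nonneg fun m hm => mul_nonneg (hg m hm) (by positivity)
  -- first identity
  have e1 : (S : ℂ) = ∑ m ∈ M, (g m : ℂ) * (φ m * v m) := by
    rw [hS]
    push_cast
    have : ∀ i ∈ I, ((‖B i‖ : ℝ) : ℂ) ^ 2 = (starRingEnd ℂ) (B i) * ∑ m ∈ M, (g m : ℂ) * (φ m * u i m) := by
      intro i _
      change ((‖B i‖ : ℝ) : ℂ) ^ 2 = (starRingEnd ℂ) (B i) * B i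
      rw [mul_comm, Complex.mul_conj, Complex.normSq_eq_norm_sq]
      push_cast
      rfl
    rw [sum_congr rfl this]
    simp only [hv, mul_sum]
    rw [sum_comm]
    refine sum_congr rfl fun m _ => sum_congr rfl fun i _ => ?_
    ring
  have e2 : S ^ 2 ≤ G * T := by
    have f1 : S ≤ ∑ m ∈ M, g m * ‖v m‖ := by
      have : S = ‖(S : ℂ)‖ := by rw [Complex.norm_real, Real.norm_of_nonneg hS0]
      rw [this, e1]
      refine (norm_sum_le _ _).trans (sum_le_sum fun m hm => ?_)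
      rw [norm_mul, norm_mul, Complex.norm_real, Real.norm_of_nonneg (hg m hm)]
      refine mul_le_mul_of_nonneg_left ?_ (hg m hm)
      exact mul_le_of_le_one_left (norm_nonneg _) (hφ m hm)
    have f2 : (∑ m ∈ M, g m * ‖v m‖) ^ 2 ≤ (∑ m ∈ M, g m) * ∑ m ∈ M, g m * ‖v m‖ ^ 2 :=
      sum_sq_le_sum_mul_sum_of_sq_le_mul M (fun m hm => hg m hm) (fun m hm => mul_nonneg (hg m hm) (by positivity))
        (fun m _ => (by ring : (g m * ‖v m‖) ^ 2 = g m * (g m * ‖v m‖ ^ 2)).le)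
    calc S ^ 2 ≤ (∑ m ∈ M, g m * ‖v m‖) ^ 2 := pow_le_pow_left₀ hS0 f1 2
      _ ≤ (∑ m ∈ M, g m) * T := f2
      _ ≤ G * T := mul_le_mul_of_nonneg_right hG hT0
  -- the second form
  have e3 : T ≤ S * (G + #I * δ) := by
    have f1 : (T : ℂ) = ∑ i ∈ I, ∑ j ∈ I, (starRingEnd ℂ) (B i) * B j * ((∑ m ∈ M, g m * (u i m * u j m) : ℝ) : ℂ) := by
      rw [hT]
      push_cast
      have : ∀ m ∈ M, (g m : ℂ) * ((‖v m‖ : ℝ) : ℂ) ^ 2 =
          ∑ i ∈ I, ∑ j ∈ I, (starRingEnd ℂ) (B i) * B j * ((g m : ℂ) * (u i m * u j m)) := by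
        intro m _
        have g1 : ((‖v m‖ : ℝ) : ℂ) ^ 2 = v m * (starRingEnd ℂ) (v m) := by
          rw [Complex.mul_conj, Complex.normSq_eq_norm_sq]
          push_cast
          rfl
        rw [g1]
        simp only [hv]
        rw [map_sum, sum_mul_sum, mul_sum]
        refine sum_congr rfl fun i _ => ?_
        rw [mul_sum]
        refine sum_congr rfl fun j _ => ?_
        rw [map_mul (starRingEnd ℂ), Complex.conj_conj, Complex.conj_ofReal]
        ring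
      rw [sum_congr rfl this, sum_comm]
      refine sum_congr rfl fun i _ => ?_
      rw [sum_comm]
      refine sum_congr rfl fun j _ => ?_
      exact (mul_sum _ _ _).symm
    have f2 : T ≤ ∑ i ∈ I, ∑ j ∈ I, ‖B i‖ * ‖B j‖ * |∑ m ∈ M, g m * (u i m * u j m)| := by
      have : T = ‖(T : ℂ)‖ := by rw [Complex.norm_real, Real.norm_of_nonneg hT0]
      rw [this, f1]
      refine (norm_sum_le _ _).trans (sum_le_sum fun i _ => (norm_sum_le _ _).trans (sum_le_sum fun j _ => ?_))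
      rw [norm_mul, norm_mul, RCLike.norm_conj, Complex.norm_real, Real.norm_eq_abs]
    have f3 : ∀ i ∈ I, ∀ j ∈ I, ‖B i‖ * ‖B j‖ * |∑ m ∈ M, g m * (u i m * u j m)| ≤
        (if i = j then ‖B i‖ ^ 2 * G else 0) + (‖B i‖ ^ 2 + ‖B j‖ ^ 2) / 2 * δ := by
      intro i hi j hj
      have h0 : 0 ≤ ‖B i‖ * ‖B j‖ := by positivity
      split_ifs with hij
      · rw [← hij]
        have g1 : |∑ m ∈ M, g m * (u i m * u i m)| ≤ G := by
          rw [abs_of_nonneg (sum_nonneg fun m hm => mul_nonneg (hg m hm) (mul_self_nonneg _))]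
          refine le_trans (sum_le_sum fun m hm => ?_) hG
          refine mul_le_of_le_one_right (hg m hm) ?_
          have := hu i hi m hm
          rw [← abs_mul_abs_self]
          nlinarith [abs_nonneg (u i m)]
        have g2 : 0 ≤ (‖B i‖ ^ 2 + ‖B i‖ ^ 2) / 2 * δ := by positivity
        have g3 : ‖B i‖ * ‖B i‖ * |∑ m ∈ M, g m * (u i m * u i m)| ≤ ‖B i‖ * ‖B i‖ * G :=
          mul_le_mul_of_nonneg_left g1 (by positivity)
        nlinarith
      · have g1 := ho i hi j hj hij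
        have g2 : ‖B i‖ * ‖B j‖ ≤ (‖B i‖ ^ 2 + ‖B j‖ ^ 2) / 2 := by nlinarith [sq_nonneg (‖B i‖ - ‖B j‖)]
        have g3 := mul_le_mul g2 g1 (abs_nonneg _) (by positivity)
        linarith
    refine f2.trans ((sum_le_sum fun i hi => sum_le_sum fun j hj => f3 i hi j hj).trans (le_of_eq ?_))
    have f4 : ∀ i ∈ I, ∑ j ∈ I, ((if i = j then ‖B i‖ ^ 2 * G else 0) + (‖B i‖ ^ 2 + ‖B j‖ ^ 2) / 2 * δ) =
        ‖B i‖ ^ 2 * G + (#I * ‖B i‖ ^ 2 + S) / 2 * δ := by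
      intro i hi
      rw [sum_add_distrib, sum_ite_eq I i, if_pos hi, ← sum_mul, ← sum_div, sum_add_distrib, sum_const, nsmul_eq_mul]
    rw [sum_congr rfl f4, sum_add_distrib, ← sum_mul, ← sum_mul, ← sum_div, sum_add_distrib, ← mul_sum, sum_const,
      nsmul_eq_mul]
    rw [← hS]
    ring
  have e4 : S * S ≤ S * (G * (G + #I * δ)) := by
    have : G * T ≤ G * (S * (G + #I * δ)) := mul_le_mul_of_nonneg_left e3 hG0
    nlinarith
  rcases hS0.eq_or_lt with h0 | h0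
  · rw [← h0]
    have : 0 ≤ (#I : ℝ) * δ := by positivity
    positivity
  · exact le_of_mul_le_mul_left e4 h0

/-- the products over the translates by the members of a set -/
noncomputable def UU (I : Finset ℕ) (n : ℤ) : ℝ := if 1 ≤ n then ∏ i ∈ I, (lm (n.toNat + i) : ℝ) else 0

lemma UU_abs (I : Finset ℕ) (n : ℤ) : |UU I n| ≤ 1 := by
  unfold UU
  split_ifs
  · rw [abs_prod]
    refine (prod_eq_one fun i _ => ?_).le
    exact_mod_cast lm_abs _
  · simp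

lemma prod_sq (I : Finset ℕ) (n : ℕ) : (∏ i ∈ I, (lm (n + i) : ℝ)) * ∏ i ∈ I, (lm (n + i) : ℝ) = 1 := by
  rw [← prod_mul_distrib]
  exact prod_eq_one fun i _ => by exact_mod_cast lm_sq _

lemma UU_mul (I J : Finset ℕ) (n : ℤ) : UU I n * UU J n = UU (symmDiff I J) n := by
  unfold UU
  split_ifs
  · have h1 : ∏ i ∈ I, (lm (n.toNat + i) : ℝ) = (∏ i ∈ I \ J, (lm (n.toNat + i) : ℝ)) * ∏ i ∈ I ∩ J, (lm (n.toNat + i) : ℝ) := by
      rw [← prod_union (disjoint_sdiff_inter I J), sdiff_union_inter]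
    have h2 : ∏ i ∈ J, (lm (n.toNat + i) : ℝ) = (∏ i ∈ J \ I, (lm (n.toNat + i) : ℝ)) * ∏ i ∈ J ∩ I, (lm (n.toNat + i) : ℝ) := by
      rw [← prod_union (disjoint_sdiff_inter J I), sdiff_union_inter]
    have h3 : ∏ i ∈ symmDiff I J, (lm (n.toNat + i) : ℝ) = (∏ i ∈ I \ J, (lm (n.toNat + i) : ℝ)) * ∏ i ∈ J \ I, (lm (n.toNat + i) : ℝ) := by
      rw [← prod_union]
      · rfl
      · rw [disjoint_left]
        intro a ha hb
        rw [mem_sdiff] at ha hb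
        exact hb.2 ha.1
    rw [h1, h2, h3, inter_comm J I]
    have := prod_sq (I ∩ J) n.toNat
    calc _ = (∏ i ∈ I \ J, (lm (n.toNat + i) : ℝ)) * (∏ i ∈ J \ I, (lm (n.toNat + i) : ℝ)) *
        ((∏ i ∈ I ∩ J, (lm (n.toNat + i) : ℝ)) * ∏ i ∈ I ∩ J, (lm (n.toNat + i) : ℝ)) := by ring
      _ = _ := by rw [this, mul_one]
  · simp

lemma UU_one (i : ℕ) (n : ℤ) : ((UU {i} n : ℝ) : ℂ) = F1 1 i n := by
  unfold UU F1
  split_ifs
  · rw [prod_singleton, one_mul]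
    push_cast
    rfl
  · simp

lemma UU_two (i j : ℕ) (hij : i ≠ j) (n : ℤ) : ((UU {i, j} n : ℝ) : ℂ) = F2 1 i 1 j n := by
  unfold UU F2
  split_ifs
  · rw [prod_pair hij, one_mul]
    push_cast
    rfl
  · simp

end Pool.Agent.H542.PC
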