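import Pool.Agent.H542.PC.Q5

/-!
Products of many values along almost all translates.
-/

set_option autoImplicit false

namespace Pool.Agent.H542.PC

open Finset Polynomial
open Pool.Agent.Y958.U (LZ)
open Pool.Agent.Helper896.MA (LZ_sub diag' LZ_empty LZ_union LZ_fin lm lm_abs lm_sq)
open Pool.Agent.H373R2.T7 (lam1 lam1_le pnt_lam)

/-- the prime number theorem, one sided -/
lemma lam1_up (κ : ℝ) (hκ : 0 < κ) : ∃ x₀ : ℕ, ∀ x : ℕ, x₀ ≤ x → lam1 x ≤ (1 + κ) * x := by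
  obtain ⟨C, N1, hC, hp⟩ := pnt_lam 1
  obtain ⟨N2, hN2⟩ := exists_nat_ge (Real.exp (2 * C / κ))
  obtain ⟨N3, hN3⟩ := exists_nat_ge (4 / κ)
  refine ⟨max N1 (max N2 N3), fun x hx => ?_⟩
  have a1 : N1 ≤ x := by omega
  have a2 : (N2 : ℝ) ≤ x := by exact_mod_cast (by omega : N2 ≤ x)
  have a3 : (N3 : ℝ) ≤ x := by exact_mod_cast (by omega : N3 ≤ x)
  have h3 := hp x a1
  rw [pow_one] at h3
  have h4 : Real.exp (2 * C / κ) ≤ x := hN2.trans a2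
  have hv1 : (0 : ℝ) < x := lt_of_lt_of_le (Real.exp_pos _) h4
  have h5 : 2 * C / κ ≤ Real.log x := (Real.le_log_iff_exp_le hv1).2 h4
  have h6 : C * (x / Real.log x) ≤ κ / 2 * x := by
    have h7 : 0 < Real.log x := lt_of_lt_of_le (by positivity) h5
    rw [← mul_div_assoc, div_le_iff₀ h7]
    rw [div_le_iff₀ hκ] at h5
    nlinarith
  have h7 : 2 ≤ κ / 2 * x := by
    have := hN3.trans a3
    rw [div_le_iff₀ hκ] at this
    linarith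
  have h8 := (abs_le.1 h3).2
  linarith

/-- one exceptional set of translates for all the pairs and singles -/
theorem pairs_B : ∃ B : Set ℕ, LZ B ∧ ∀ (f : ℤ[X]), 1 ≤ f.natDegree → ∀ (K : ℕ) (ε : ℝ), 0 < ε →
    ∀ D : Finset ℕ, D.Nonempty → #D ≤ 2 → ∃ t₀ : ℕ, ∀ t : ℕ, t₀ ≤ t → t ∉ B → ∀ x : ℕ, x ^ f.natDegree ≤ K * t →
      |∑ m ∈ Icc 1 x, UU D (t + f.eval (m : ℤ))| ^ f.natDegree ≤ ε * t ∧
      |∑ m ∈ Icc 1 x, ArithmeticFunction.vonMangoldt m * UU D (t + f.eval (m : ℤ))| ^ f.natDegree ≤ ε * t := by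
  obtain ⟨E, hE, hF⟩ := pairs_sup
  have hkey : ∀ (F : ℤ → ℂ), SupZ E F → (∀ n, ‖F n‖ ≤ 1) → (∀ n ≤ 0, F n = 0) → ∀ (f : ℤ[X]), 1 ≤ f.natDegree →
      ∀ (K : ℕ) (ε : ℝ), 0 < ε → LZ (BadW f (fun _ => 1) F K ε ∪ BadW f LamC F K ε) := by
    intro F h1 h2 h3 f hf K ε hε
    exact LZ_union (badW_LZ E hE F h2 f hf _ (SM_one E _ h1 h2 h3 f hf) Mass_one K _ hε)
      (badW_LZ E hE F h2 f hf _ (SM_prime E _ h1 h2 h3 f hf) Mass_prime K _ hε)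
  -- the index of the sets `D`
  obtain ⟨B, hB, hd⟩ := diag' (ι := (ℕ × ℕ) × ℤ[X] × ℕ × ℕ)
    (fun z => if 1 ≤ z.2.1.natDegree then
      (if z.1.1 = z.1.2 then
        BadW z.2.1 (fun _ => 1) (F1 1 z.1.1) z.2.2.1 (1 / ((z.2.2.2 : ℝ) + 1)) ∪
        BadW z.2.1 LamC (F1 1 z.1.1) z.2.2.1 (1 / ((z.2.2.2 : ℝ) + 1))
      else
        BadW z.2.1 (fun _ => 1) (F2 1 z.1.1 1 z.1.2) z.2.2.1 (1 / ((z.2.2.2 : ℝ) + 1)) ∪
        BadW z.2.1 LamC (F2 1 z.1.1 1 z.1.2) z.2.2.1 (1 / ((z.2.2.2 : ℝ) + 1))) else ∅) (by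
    rintro ⟨⟨i, j⟩, f, K, m⟩
    simp only
    split_ifs with h hij
    · exact hkey _ (single_sup 1 i le_rfl E) (F1_norm 1 i) (F1_zero 1 i) f h K _ (by positivity)
    · exact hkey _ (hF 1 i 1 j le_rfl le_rfl (by
        rw [one_mul, one_mul]
        exact fun h => hij h.symm)) (F2_norm 1 i 1 j) (F2_zero 1 i 1 j) f h K _ (by positivity)
    · exact LZ_empty)
  refine ⟨B, hB, fun f hf K ε hε D hD hD2 => ?_⟩
  obtain ⟨m, hm⟩ := exists_nat_one_div_lt hε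
  -- the function attached to `D`
  have hfun : ∃ (i j : ℕ) (F : ℤ → ℂ), (∀ n, ((UU D n : ℝ) : ℂ) = F n) ∧
      ((i = j ∧ F = F1 1 i) ∨ (i ≠ j ∧ F = F2 1 i 1 j)) := by
    have hc : #D = 1 ∨ #D = 2 := by
      have := card_pos.2 hD
      omega
    rcases hc with h | h
    · obtain ⟨i, rfl⟩ := card_eq_one.1 h
      exact ⟨i, i, F1 1 i, fun n => UU_one i n, Or.inl ⟨rfl, rfl⟩⟩
    · obtain ⟨i, j, hij, rfl⟩ := card_eq_two.1 h
      exact ⟨i, j, F2 1 i 1 j, fun n => UU_two i j hij n, Or.inr ⟨hij, rfl⟩⟩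
  obtain ⟨i, j, F, hU, hF'⟩ := hfun
  obtain ⟨t₀, ht₀⟩ := hd ((i, j), f, K, m)
  refine ⟨t₀, fun t ht htB x hx => ?_⟩
  have hle : (1 / ((m : ℝ) + 1)) * t ≤ ε * t := mul_le_mul_of_nonneg_right hm.le (Nat.cast_nonneg _)
  have hnot : ¬ (t ∈ BadW f (fun _ => 1) F K (1 / ((m : ℝ) + 1)) ∪ BadW f LamC F K (1 / ((m : ℝ) + 1))) := by
    intro hmem
    apply htB
    apply ht₀ t _ ht
    simp only
    rw [if_pos hf]
    rcases hF' with ⟨h1, h2⟩ | ⟨h1, h2⟩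
    · rw [if_pos h1, ← h2]; exact hmem
    · rw [if_neg h1, ← h2]; exact hmem
  rw [Set.mem_union, not_or] at hnot
  constructor
  · by_contra hcon
    push Not at hcon
    apply hnot.1
    refine ⟨x, hx, lt_of_le_of_lt hle ?_⟩
    have e1 : ∑ m ∈ Icc 1 x, (fun _ => (1 : ℂ)) m * F (t + f.eval (m : ℤ)) =
        ((∑ m ∈ Icc 1 x, UU D (t + f.eval (m : ℤ)) : ℝ) : ℂ) := by
      push_cast
      refine sum_congr rfl fun m _ => ?_
      rw [one_mul, ← hU]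
    rw [e1, Complex.norm_real, Real.norm_eq_abs]
    exact hcon
  · by_contra hcon
    push Not at hcon
    apply hnot.2
    refine ⟨x, hx, lt_of_le_of_lt hle ?_⟩
    have e1 : ∑ m ∈ Icc 1 x, LamC m * F (t + f.eval (m : ℤ)) =
        ((∑ m ∈ Icc 1 x, ArithmeticFunction.vonMangoldt m * UU D (t + f.eval (m : ℤ)) : ℝ) : ℂ) := by
      push_cast
      refine sum_congr rfl fun m _ => ?_
      rw [← hU]
      rfl
    rw [e1, Complex.norm_real, Real.norm_eq_abs]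
    exact hcon

/-- products of many values -/
theorem many : ∃ B : Set ℕ, LZ B ∧ ∀ (f : ℤ[X]), 1 ≤ f.natDegree → ∀ 𝓘 : Finset (Finset ℕ),
    (∀ I ∈ 𝓘, ∀ J ∈ 𝓘, #(symmDiff I J) ≤ 2) → ∀ (K : ℕ) (ε : ℝ), 0 < ε → ∃ t₀ : ℕ, ∀ t : ℕ, t₀ ≤ t → t ∉ B →
      ∀ x : ℕ, ε * t ≤ (x : ℝ) ^ f.natDegree → x ^ f.natDegree ≤ K * t → ∀ φ : ℕ → ℂ, (∀ m, ‖φ m‖ ≤ 1) →
        ∑ I ∈ 𝓘, ‖∑ m ∈ Icc 1 x, φ m * UU I (t + f.eval (m : ℤ))‖ ^ 2 ≤ (1 + ε) * (x : ℝ) ^ 2 ∧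
        ∑ I ∈ 𝓘, ‖∑ m ∈ Icc 1 x, LamC m * (φ m * UU I (t + f.eval (m : ℤ)))‖ ^ 2 ≤ (1 + ε) * (x : ℝ) ^ 2 := by
  classical
  obtain ⟨B, hB, h⟩ := pairs_B
  refine ⟨B, hB, fun f hf 𝓘 hI K ε hε => ?_⟩
  set k := f.natDegree with hk
  set n : ℕ := #𝓘 with hn
  set κ : ℝ := min 1 (ε / (2 * n + 3)) with hκ
  have hκ0 : 0 < κ := lt_min one_pos (by positivity)
  have hκ1 : κ ≤ 1 := min_le_left _ _
  have hκ2 : κ * (2 * n + 3) ≤ ε := by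
    have : κ ≤ ε / (2 * n + 3) := min_le_right _ _
    rwa [le_div_iff₀ (by positivity)] at this
  have hn0 : (0 : ℝ) ≤ n := Nat.cast_nonneg _
  have h' : ∀ p : Finset ℕ × Finset ℕ, ∃ t₀ : ℕ, p.1 ∈ 𝓘 → p.2 ∈ 𝓘 → p.1 ≠ p.2 → ∀ t : ℕ, t₀ ≤ t → t ∉ B →
      ∀ x : ℕ, x ^ k ≤ K * t →
      |∑ m ∈ Icc 1 x, UU (symmDiff p.1 p.2) (t + f.eval (m : ℤ))| ^ k ≤ ε * κ ^ k * t ∧
      |∑ m ∈ Icc 1 x, ArithmeticFunction.vonMangoldt m * UU (symmDiff p.1 p.2) (t + f.eval (m : ℤ))| ^ k ≤ ε * κ ^ k * t := by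
    rintro ⟨I, J⟩
    by_cases hp : I ∈ 𝓘 ∧ J ∈ 𝓘 ∧ I ≠ J
    · obtain ⟨hp1, hp2, hp3⟩ := hp
      have hne : (symmDiff I J).Nonempty := by
        rw [nonempty_iff_ne_empty]
        intro h0
        exact hp3 (symmDiff_eq_bot.1 h0)
      obtain ⟨t₀, ht₀⟩ := h f hf K (ε * κ ^ k) (by positivity) (symmDiff I J) hne (hI I hp1 J hp2)
      exact ⟨t₀, fun _ _ _ => ht₀⟩
    · refine ⟨0, fun h1 h2 h3 => absurd ⟨h1, h2, h3⟩ hp⟩
  choose T hT using h'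
  obtain ⟨x₀, hx₀⟩ := lam1_up κ hκ0
  obtain ⟨t₁, ht₁⟩ := exists_nat_ge (((x₀ : ℝ) + 1) ^ k / ε)
  refine ⟨max ((𝓘 ×ˢ 𝓘).sup T) t₁, fun t ht htB x hx1 hx2 φ hφ => ?_⟩
  have htt : (t₁ : ℝ) ≤ t := by exact_mod_cast (le_max_right _ _).trans ht
  have hxx : x₀ ≤ x := by
    have e1 : ((x₀ : ℝ) + 1) ^ k ≤ (x : ℝ) ^ k := by
      have := ht₁.trans htt
      rw [div_le_iff₀ hε] at this
      linarith
    by_contra hcon
    push Not at hcon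
    have e2 : (x : ℝ) < x₀ + 1 := by
      have : (x : ℝ) < x₀ := by exact_mod_cast hcon
      linarith
    have e3 := pow_lt_pow_left₀ e2 (Nat.cast_nonneg _) (by omega : k ≠ 0)
    linarith
  have hxr : (0 : ℝ) ≤ x := Nat.cast_nonneg _
  -- the off diagonal terms
  have hoff : ∀ I ∈ 𝓘, ∀ J ∈ 𝓘, I ≠ J →
      |∑ m ∈ Icc 1 x, UU (symmDiff I J) (t + f.eval (m : ℤ))| ≤ κ * x ∧
      |∑ m ∈ Icc 1 x, ArithmeticFunction.vonMangoldt m * UU (symmDiff I J) (t + f.eval (m : ℤ))| ≤ κ * x := by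
    intro I hI1 J hJ1 hIJ
    have e1 : T (I, J) ≤ t := by
      have : T (I, J) ≤ (𝓘 ×ˢ 𝓘).sup T := le_sup (f := T) (mem_product.2 ⟨hI1, hJ1⟩)
      exact this.trans ((le_max_left _ _).trans ht)
    obtain ⟨e2, e3⟩ := hT (I, J) hI1 hJ1 hIJ t e1 htB x hx2
    have e4 : ε * κ ^ k * t ≤ (κ * x) ^ k := by
      rw [mul_pow]
      calc ε * κ ^ k * t = κ ^ k * (ε * t) := by ring
        _ ≤ _ := mul_le_mul_of_nonneg_left hx1 (by positivity)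
    constructor
    · exact le_of_pow_le_pow_left₀ (by omega : k ≠ 0) (by positivity) (e2.trans e4)
    · exact le_of_pow_le_pow_left₀ (by omega : k ≠ 0) (by positivity) (e3.trans e4)
  constructor
  · have h1 := bessel 𝓘 (Icc 1 x) (fun _ => 1) (fun _ _ => zero_le_one) (fun I m => UU I (t + f.eval (m : ℤ)))
      (fun I _ m _ => UU_abs I _) φ (fun m _ => hφ m) x (κ * x) (by
        rw [sum_const, Nat.card_Icc, nsmul_eq_mul, mul_one, Nat.add_sub_cancel]) (by positivity) (by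
        intro I hI1 J hJ1 hIJ
        have := (hoff I hI1 J hJ1 hIJ).1
        simp only [one_mul, UU_mul]
        exact this)
    have e1 : ∀ I ∈ 𝓘, ‖∑ m ∈ Icc 1 x, φ m * UU I (t + f.eval (m : ℤ))‖ ^ 2 =
        ‖∑ m ∈ Icc 1 x, ((1 : ℝ) : ℂ) * (φ m * UU I (t + f.eval (m : ℤ)))‖ ^ 2 := by
      intro I _
      simp only [Complex.ofReal_one, one_mul]
    rw [sum_congr rfl e1]
    refine h1.trans ?_
    have : (x : ℝ) * (x + n * (κ * x)) = (1 + n * κ) * (x : ℝ) ^ 2 := by ring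
    rw [this]
    refine mul_le_mul_of_nonneg_right ?_ (by positivity)
    nlinarith
  · have h1 := bessel 𝓘 (Icc 1 x) (fun m => ArithmeticFunction.vonMangoldt m)
      (fun _ _ => ArithmeticFunction.vonMangoldt_nonneg) (fun I m => UU I (t + f.eval (m : ℤ)))
      (fun I _ m _ => UU_abs I _) φ (fun m _ => hφ m) ((1 + κ) * x) (κ * x) (hx₀ x hxx) (by positivity) (by
        intro I hI1 J hJ1 hIJ
        have := (hoff I hI1 J hJ1 hIJ).2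
        simp only [UU_mul]
        exact this)
    refine h1.trans ?_
    have : (1 + κ) * (x : ℝ) * ((1 + κ) * x + n * (κ * x)) = ((1 + κ) * (1 + κ * (n + 1))) * (x : ℝ) ^ 2 := by ring
    rw [this]
    refine mul_le_mul_of_nonneg_right ?_ (by positivity)
    nlinarith [mul_nonneg hκ0.le hn0, mul_le_mul_of_nonneg_left hκ1 hκ0.le]

end Pool.Agent.H542.PC
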