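import Pool.Agent.H542.PC.Q6

/-!
Pairs of products along almost all translates.
-/

set_option autoImplicit false

namespace Pool.Agent.H542.PC

open Finset Polynomial
open Pool.Agent.Y958.U (LZ)
open Pool.Agent.Helper896.MA (lm lm_abs lm_sq)
open Pool.Agent.H373R2.T7 (lam1 lam1_le pnt_lam)

lemma two_sum (M : Finset ℕ) (g u v : ℕ → ℝ) (hg : ∀ m ∈ M, 0 ≤ g m)
    (h : ∀ m ∈ M, ∀ σ τ : ℝ, (σ = 1 ∨ σ = -1) → (τ = 1 ∨ τ = -1) → σ * u m + τ * v m ≤ 1 + σ * τ * (u m * v m)) :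
    |∑ m ∈ M, g m * u m| + |∑ m ∈ M, g m * v m| ≤ ∑ m ∈ M, g m + |∑ m ∈ M, g m * (u m * v m)| := by
  have key : ∀ σ τ : ℝ, (σ = 1 ∨ σ = -1) → (τ = 1 ∨ τ = -1) →
      σ * (∑ m ∈ M, g m * u m) + τ * (∑ m ∈ M, g m * v m) ≤ ∑ m ∈ M, g m + |∑ m ∈ M, g m * (u m * v m)| := by
    intro σ τ hσ hτ
    have e1 : σ * (∑ m ∈ M, g m * u m) + τ * (∑ m ∈ M, g m * v m) ≤
        ∑ m ∈ M, g m + σ * τ * ∑ m ∈ M, g m * (u m * v m) := by
      rw [mul_sum, mul_sum, mul_sum, ← sum_add_distrib, ← sum_add_distrib]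
      refine sum_le_sum fun m hm => ?_
      have := mul_le_mul_of_nonneg_left (h m hm σ τ hσ hτ) (hg m hm)
      linarith
    have e2 : σ * τ * ∑ m ∈ M, g m * (u m * v m) ≤ |∑ m ∈ M, g m * (u m * v m)| := by
      have h3 := neg_abs_le (∑ m ∈ M, g m * (u m * v m))
      have h4 := le_abs_self (∑ m ∈ M, g m * (u m * v m))
      rcases hσ with h | h <;> rcases hτ with h' | h' <;> rw [h, h'] <;> linarith
    linarith
  rcases abs_cases (∑ m ∈ M, g m * u m) with h1 | h1 <;> rcases abs_cases (∑ m ∈ M, g m * v m) with h2 | h2 <;>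
    rw [h1.1, h2.1]
  · have := key 1 1 (Or.inl rfl) (Or.inl rfl); linarith
  · have := key 1 (-1) (Or.inl rfl) (Or.inr rfl); linarith
  · have := key (-1) 1 (Or.inr rfl) (Or.inl rfl); linarith
  · have := key (-1) (-1) (Or.inr rfl) (Or.inr rfl); linarith

lemma UU_val (I : Finset ℕ) (n : ℤ) (hn : 1 ≤ n) : UU I n = 1 ∨ UU I n = -1 := by
  have h : UU I n * UU I n = 1 := by
    unfold UU
    rw [if_pos hn]
    exact prod_sq I n.toNat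
  have : (UU I n - 1) * (UU I n + 1) = 0 := by linarith [h]
  rcases mul_eq_zero.1 this with h1 | h1
  · left; linarith
  · right; linarith

lemma UU_ineq (I J : Finset ℕ) (n : ℤ) (σ τ : ℝ) (hσ : σ = 1 ∨ σ = -1) (hτ : τ = 1 ∨ τ = -1) :
    σ * UU I n + τ * UU J n ≤ 1 + σ * τ * (UU I n * UU J n) := by
  by_cases hn : 1 ≤ n
  · rcases UU_val I n hn with h1 | h1 <;> rcases UU_val J n hn with h2 | h2 <;> rcases hσ with h3 | h3 <;>
      rcases hτ with h4 | h4 <;> rw [h1, h2, h3, h4] <;> norm_num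
  · have h1 : UU I n = 0 := by unfold UU; rw [if_neg hn]
    have h2 : UU J n = 0 := by unfold UU; rw [if_neg hn]
    rw [h1, h2]
    norm_num

/-- the theorem on products of many values -/
theorem many_all : ∃ B : Set ℕ, LZ B ∧ ∀ (f : ℤ[X]), 1 ≤ f.natDegree → ∀ (K : ℕ) (ε : ℝ), 0 < ε →
    (∀ D : Finset ℕ, D.Nonempty → #D ≤ 2 → ∃ t₀ : ℕ, ∀ t : ℕ, t₀ ≤ t → t ∉ B → ∀ x : ℕ, x ^ f.natDegree ≤ K * t →
      |∑ m ∈ Icc 1 x, UU D (t + f.eval (m : ℤ))| ^ f.natDegree ≤ ε * t ∧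
      |∑ m ∈ Icc 1 x, ArithmeticFunction.vonMangoldt m * UU D (t + f.eval (m : ℤ))| ^ f.natDegree ≤ ε * t) ∧
    (∀ 𝓘 : Finset (Finset ℕ), (∀ I ∈ 𝓘, ∀ J ∈ 𝓘, #(symmDiff I J) ≤ 2) → ∃ t₀ : ℕ, ∀ t : ℕ, t₀ ≤ t → t ∉ B →
      ∀ x : ℕ, ε * t ≤ (x : ℝ) ^ f.natDegree → x ^ f.natDegree ≤ K * t → ∀ φ : ℕ → ℂ, (∀ m, ‖φ m‖ ≤ 1) →
        ∑ I ∈ 𝓘, ‖∑ m ∈ Icc 1 x, φ m * UU I (t + f.eval (m : ℤ))‖ ^ 2 ≤ (1 + ε) * (x : ℝ) ^ 2 ∧
        ∑ I ∈ 𝓘, ‖∑ m ∈ Icc 1 x, LamC m * (φ m * UU I (t + f.eval (m : ℤ)))‖ ^ 2 ≤ (1 + ε) * (x : ℝ) ^ 2) ∧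
    (∀ I J : Finset ℕ, I ≠ J → #(symmDiff I J) ≤ 2 → ∃ t₀ : ℕ, ∀ t : ℕ, t₀ ≤ t → t ∉ B →
      ∀ x : ℕ, ε * t ≤ (x : ℝ) ^ f.natDegree → x ^ f.natDegree ≤ K * t →
        |∑ m ∈ Icc 1 x, UU I (t + f.eval (m : ℤ))| + |∑ m ∈ Icc 1 x, UU J (t + f.eval (m : ℤ))| ≤ (1 + ε) * x ∧
        |∑ m ∈ Icc 1 x, ArithmeticFunction.vonMangoldt m * UU I (t + f.eval (m : ℤ))| +
          |∑ m ∈ Icc 1 x, ArithmeticFunction.vonMangoldt m * UU J (t + f.eval (m : ℤ))| ≤ (1 + ε) * x) := by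
  classical
  obtain ⟨B1, hB1, h1⟩ := pairs_B
  obtain ⟨B2, hB2, h2⟩ := many
  refine ⟨B1 ∪ B2, Pool.Agent.Helper896.MA.LZ_union hB1 hB2, fun f hf K ε hε => ⟨?_, ?_, ?_⟩⟩
  · intro D hD hD2
    obtain ⟨t₀, ht₀⟩ := h1 f hf K ε hε D hD hD2
    exact ⟨t₀, fun t ht htB => ht₀ t ht (fun h => htB (Or.inl h))⟩
  · intro 𝓘 hI
    obtain ⟨t₀, ht₀⟩ := h2 f hf 𝓘 hI K ε hε
    exact ⟨t₀, fun t ht htB => ht₀ t ht (fun h => htB (Or.inr h))⟩
  · intro I J hIJ hD2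
    set k := f.natDegree with hk
    set κ : ℝ := ε / 2 with hκ
    have hκ0 : 0 < κ := by positivity
    have hne : (symmDiff I J).Nonempty := by
      rw [nonempty_iff_ne_empty]
      intro h0
      exact hIJ (symmDiff_eq_bot.1 h0)
    obtain ⟨t₀, ht₀⟩ := h1 f hf K (ε * κ ^ k) (by positivity) (symmDiff I J) hne hD2
    obtain ⟨x₀, hx₀⟩ := lam1_up κ hκ0
    obtain ⟨t₁, ht₁⟩ := exists_nat_ge (((x₀ : ℝ) + 1) ^ k / ε)
    refine ⟨max t₀ t₁, fun t ht htB x hx1 hx2 => ?_⟩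
    have htt : (t₁ : ℝ) ≤ t := by exact_mod_cast (le_max_right _ _).trans ht
    have hxx : x₀ ≤ x := by
      have e1 : ((x₀ : ℝ) + 1) ^ k ≤ (x : ℝ) ^ k := by
        have := ht₁.trans htt
        rw [div_le_iff₀ hε] at this
        linarith
      by_contra hcon
      push Not at hcon
      have e2 : (x : ℝ) < x₀ + 1 := by
        have : (x : ℝ) < x₀ := by exact_mod_cast hcon
        linarith
      have e3 := pow_lt_pow_left₀ e2 (Nat.cast_nonneg _) (by omega : k ≠ 0)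
      linarith
    obtain ⟨e2, e3⟩ := ht₀ t ((le_max_left _ _).trans ht) (fun h => htB (Or.inl h)) x hx2
    have e4 : ε * κ ^ k * t ≤ (κ * x) ^ k := by
      rw [mul_pow]
      calc ε * κ ^ k * t = κ ^ k * (ε * t) := by ring
        _ ≤ _ := mul_le_mul_of_nonneg_left hx1 (by positivity)
    have e5 : |∑ m ∈ Icc 1 x, UU (symmDiff I J) (t + f.eval (m : ℤ))| ≤ κ * x :=
      le_of_pow_le_pow_left₀ (by omega : k ≠ 0) (by positivity) (e2.trans e4)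
    have e6 : |∑ m ∈ Icc 1 x, ArithmeticFunction.vonMangoldt m * UU (symmDiff I J) (t + f.eval (m : ℤ))| ≤ κ * x :=
      le_of_pow_le_pow_left₀ (by omega : k ≠ 0) (by positivity) (e3.trans e4)
    constructor
    · have h3 := two_sum (Icc 1 x) (fun _ => 1) (fun m => UU I (t + f.eval (m : ℤ))) (fun m => UU J (t + f.eval (m : ℤ)))
        (fun _ _ => zero_le_one) (fun m _ σ τ hσ hτ => UU_ineq I J _ σ τ hσ hτ)
      simp only [one_mul, UU_mul] at h3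
      rw [sum_const, Nat.card_Icc, nsmul_eq_mul, mul_one, Nat.add_sub_cancel] at h3
      have : κ * x ≤ ε * x := mul_le_mul_of_nonneg_right (by linarith) (Nat.cast_nonneg _)
      linarith
    · have h3 := two_sum (Icc 1 x) (fun m => ArithmeticFunction.vonMangoldt m) (fun m => UU I (t + f.eval (m : ℤ)))
        (fun m => UU J (t + f.eval (m : ℤ)))
        (fun _ _ => ArithmeticFunction.vonMangoldt_nonneg) (fun m _ σ τ hσ hτ => UU_ineq I J _ σ τ hσ hτ)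
      simp only [UU_mul] at h3
      have h4 : ∑ m ∈ Icc 1 x, ArithmeticFunction.vonMangoldt m ≤ (1 + κ) * x := hx₀ x hxx
      have h5 : (1 + κ) * (x : ℝ) + κ * x = (1 + ε) * x := by rw [hκ]; ring
      linarith

end Pool.Agent.H542.PC
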